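import Pool.Agent.H543R3.PC.Final

set_option autoImplicit false

/-!
# The Borel complexity of: there is a p-optimal proof system

This file states a theorem of the library `Pool.Agent.H543R3.PC` of the starting files (helper543
and others), which no result file stated before.
-/

namespace Pool.Agent.Results.MP_f0c157_lc.BorelComplexity

open Pool.Agent.H628R3.RO

/-- Relative to `A` some `coNP`-complete set has a p-optimal proof system. -/
def HasOptimal (A : Oracle) : Prop :=
  ∃ L : Set (List Bool), IsCoNP A L ∧ CoNPHardRel A L ∧ ∃ P, IsPOptimal A L P

/-- The set of the oracles `A` such that `HasOptimal A` holds is `Σ⁰₄`-complete. -/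
theorem result : H556R2.Sigma04Complete {A : Oracle | HasOptimal A} :=
  Pool.Agent.H543R3.PC.poptT_complete

end Pool.Agent.Results.MP_f0c157_lc.BorelComplexity
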