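import Pool.Agent.TH733.RG.Triv
import Pool.Agent.H628R3.RO.F1

/-!
# Common translates of independent random oracles: optimal proof systems

`xor2 A B` is the symmetric difference of the oracles `A` and `B`, the translate of `A` by `B`.

* For every sequence `B 0, B 1, ...` of oracles there is one oracle `A` such that, relative to every
  translate of `A` by a `B i`, there is a p-optimal proof system for a `coNP`-complete set, and every
  nonempty set in `PSPACE` has a p-optimal proof system.
* Let the `B i` be independent random oracles. Almost surely, for every set `I` of numbers there is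
  one oracle `A` such that for all `i`, relative to the translate of `A` by `B i`: if `i` is in `I`,
  then every nonempty set in `PSPACE` has a p-optimal proof system; if `i` is not in `I`, then no
  `coNP`-hard set has an optimal proof system: for each of its proof systems some other one has
  exponentially shorter proofs of infinitely many elements.

So every pattern of answers to Q1 is realised by the translates of one oracle.

Proof. `A` codes the computations relative to its translates by the `B i`, `i ∈ I`, masked by
`B i`, so that `P = PSPACE` relative to these translates; on the strings of length at most `n` it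
depends on `I` only in a very slowly growing initial segment; and for a fixed `I` the translate by an
independent random oracle is random. The theorem on random oracles (`H628R3.RO.optimal_main`) says
that the exceptional oracles have measure zero. Every set of measure zero is a null set for some gauge
that tends to infinity (`RG/Zero.lean`), and a slow enough dependence on `I` allows to treat all
`I` at the same time.
-/

set_option autoImplicit false

namespace Pool.Agent.Results.MP_f0c157_lc.IndependentTranslates

open MeasureTheory Filter Pool.Agent.NPC Pool.Agent.H628R3.RO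
open Pool.Agent.H620R2.Gauge (IsPSPACE)
open Pool.Agent.TH733.RT (xor2 randomSeq)
open Pool.Agent.TH733.RG (Collapse patterns collapse_all isNP_poly of_conp)

/-- Relative to `A` some `coNP`-complete set has a p-optimal proof system. -/
def HasPOptimal (A : Oracle) : Prop :=
  ∃ L : Set (List Bool), IsCoNP A L ∧ CoNPHardRel A L ∧ ∃ P, IsPOptimal A L P

/-- Relative to `A` some `coNP`-complete set has an optimal proof system. -/
def HasOptimal (A : Oracle) : Prop :=
  ∃ L : Set (List Bool), IsCoNP A L ∧ CoNPHardRel A L ∧ ∃ P, IsOptimal A L P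

/-- Relative to `A` every nonempty set in `PSPACE` has a p-optimal proof system. -/
def AllPOptimal (A : Oracle) : Prop :=
  ∀ L : Set (List Bool), IsPSPACE A L → L.Nonempty → ∃ P, IsPOptimal A L P

/-- Relative to `A`, for every proof system `P` of a `coNP`-hard set some proof system `Q` of the same
set has exponentially shorter proofs of infinitely many elements. -/
def NoneOptimal (A : Oracle) : Prop :=
  ∀ L : Set (List Bool), CoNPHardRel A L → ∀ P, IsProofSystem A L P →
    ∃ Q, IsProofSystem A L Q ∧ ∃ k : ℕ, ∀ N, ∃ w : List Bool, N ≤ w.length ∧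
      ∀ v, P v = Q w → 2 ^ w.length ≤ v.length ^ k

theorem hasOptimal_of {A : Oracle} (h : HasPOptimal A) : HasOptimal A := by
  obtain ⟨L, h1, h2, P, h3, h4⟩ := h
  refine ⟨L, h1, h2, P, h3, fun Q hQ => ?_⟩
  obtain ⟨g, hg, hgw⟩ := h4 Q hQ
  obtain ⟨b, hb⟩ := hg.length_le
  exact ⟨b, fun w => ⟨g w, hgw w, hb w⟩⟩

theorem not_hasOptimal {A : Oracle} (h : NoneOptimal A) : ¬ HasOptimal A := by
  rintro ⟨L, -, h2, P, h3, h4⟩
  obtain ⟨Q, hQ, k, hk⟩ := h L h2 P h3
  obtain ⟨q, hq⟩ := h4 Q hQ
  obtain ⟨n0, hn0⟩ := poly_le_two_pow (q ^ k + 1)
  obtain ⟨w, hw, hwv⟩ := hk n0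
  obtain ⟨v, hv, hvl⟩ := hq w
  have e1 := hn0 _ hw
  have e2 := hwv v hv
  have e3 : v.length ^ k ≤ q.eval w.length ^ k := Nat.pow_le_pow_left hvl k
  simp only [Polynomial.eval_add, Polynomial.eval_pow, Polynomial.eval_one] at e1
  omega

theorem allPOptimal_of {A : Oracle} (h : Collapse A) : AllPOptimal A := by
  rintro L hL ⟨x, hx⟩
  exact h.popt hL hx

theorem hasPOptimal_of {A : Oracle} (h : Collapse A) : HasPOptimal A := by
  have e1 : ({[]}ᶜ : Set (List Bool)) = {x | (!decide (x = [])) = true} := by
    ext x
    simp
  have h1 : IsCoNP A {[]} := by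
    unfold IsCoNP
    rw [e1]
    exact isNP_poly (Poly.decide_eq Poly.id (NPC.Poly.const _)).not
  exact ⟨{[]}, h1, fun L hL => h.red (y := []) (z := [true]) (of_conp hL) (by simp) (by simp),
    h.popt (of_conp h1) rfl⟩

theorem result :
    (∀ B : ℕ → Oracle, ∃ A : Oracle, ∀ i,
      HasPOptimal (xor2 A (B i)) ∧ AllPOptimal (xor2 A (B i))) ∧
    ∀ᵐ B ∂randomSeq, ∀ I : Set ℕ, ∃ A : Oracle, ∀ i,
      (i ∈ I ↔ HasPOptimal (xor2 A (B i))) ∧ (i ∈ I ↔ HasOptimal (xor2 A (B i))) ∧
      (i ∈ I → AllPOptimal (xor2 A (B i))) ∧ (i ∉ I → NoneOptimal (xor2 A (B i))) := by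
  refine ⟨fun B => ?_, ?_⟩
  · obtain ⟨A, hA⟩ := collapse_all B
    exact ⟨A, fun i => ⟨hasPOptimal_of (hA i), allPOptimal_of (hA i)⟩⟩
  · have h0 : ∀ᵐ A ∂randomOracle, A ∉ {A : Oracle | ¬ NoneOptimal A} := by
      filter_upwards [optimal_main] with A hA h
      exact h hA
    filter_upwards [patterns h0] with B hB I
    obtain ⟨A, h1, h2⟩ := hB I
    refine ⟨A, fun i => ?_⟩
    by_cases hi : i ∈ I
    · have h3 := hasPOptimal_of (h1 i hi)
      exact ⟨iff_of_true hi h3, iff_of_true hi (hasOptimal_of h3),
        fun _ => allPOptimal_of (h1 i hi), fun h => absurd hi h⟩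
    · have h3 : NoneOptimal (xor2 A (B i)) := not_not.1 (h2 i hi)
      have h4 := not_hasOptimal h3
      exact ⟨iff_of_false hi fun h => h4 (hasOptimal_of h), iff_of_false hi h4,
        fun h => absurd h hi, fun _ => h3⟩

end Pool.Agent.Results.MP_f0c157_lc.IndependentTranslates
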