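import Pool.Agent.TH672.SD.Thr

set_option autoImplicit false

/-!
# Every oracle: very few strings destroy all optimal proof systems for tautologies

The construction is in the library `Pool.Agent.TH672.SD`; it uses the libraries of the starting
files on oracle algorithms (`Pool.Agent.H628R3.RO`) and on the join of oracles
(`Pool.Agent.W900.SP`).
-/

namespace Pool.Agent.Results.MP_f0c157_lc.SparseDestruction

open Filter Pool.Agent.H628R3.RO Pool.Agent.W900.SP Pool.Agent.TH672.SD
open Pool.Agent.NPC (pairBits)
open Pool.Agent.W900.SP (join)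

/-- `T` has at most `g n` strings of length at most `n`, for all `n`. -/
def Few (g : ℕ → ℕ) (T : Oracle) : Prop :=
  ∀ n, {q | T q = true ∧ q.length ≤ n}.Finite ∧ {q | T q = true ∧ q.length ≤ n}.ncard ≤ g n

/-- Relative to `A` some `coNP`-complete set has a p-optimal proof system. -/
def HasPOptimal (A : Oracle) : Prop :=
  ∃ L : Set (List Bool), IsCoNP A L ∧ CoNPHardRel A L ∧ ∃ P, IsPOptimal A L P

/-- Relative to `A` some `coNP`-complete set has an optimal proof system. -/
def HasOptimal (A : Oracle) : Prop :=
  ∃ L : Set (List Bool), IsCoNP A L ∧ CoNPHardRel A L ∧ ∃ P, IsOptimal A L P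

/-- Relative to `A`, for every set `L` to which all languages in `coUP` reduce, every proof system
`P` for `L` is exponentially worse than some other proof system `Q` for `L`: for arbitrarily long
`w`, all `P`-proofs `v` of the statement proved by the `Q`-proof `w` satisfy `2 ^ |w| ≤ |v| ^ k`. -/
def Gap (A : Oracle) : Prop := ∀ L, (∀ L', IsUP A L'ᶜ → Red A L' L) →
  ∀ P, IsProofSystem A L P → ∃ Q, IsProofSystem A L Q ∧
    ∃ k : ℕ, ∀ N, ∃ w : List Bool, N ≤ w.length ∧ ∀ v, P v = Q w → 2 ^ w.length ≤ v.length ^ k

/-- For every oracle `O` and every function `g`: if `g` tends to infinity, however slowly, then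
there is a second oracle `T` with at most `g n` strings of length at most `n`, for all `n`, such
that relative to `join O T` no `coNP`-complete set has an optimal proof system, in the strong sense
of `Gap`; and if `g` does not tend to infinity then no second oracle `T` with at most `g n` strings
of length at most `n` changes the answers to the questions whether there are optimal or p-optimal
proof systems for `coNP`-complete sets. -/
theorem result (O : Oracle) (g : ℕ → ℕ) :
    (Tendsto g atTop atTop → ∃ T : Oracle, Few g T ∧ Gap (join O T) ∧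
      ¬ HasOptimal (join O T) ∧ ¬ HasPOptimal (join O T)) ∧
    (¬ Tendsto g atTop atTop → ∀ T : Oracle, Few g T →
      (HasOptimal (join O T) ↔ HasOptimal O) ∧ (HasPOptimal (join O T) ↔ HasPOptimal O)) := by
  have hard : ∀ {A : Oracle} {L : Set (List Bool)}, CoNPHardRel A L →
      ∀ L', IsUP A L'ᶜ → Red A L' L := fun h L' h' => h L' (IsUP.isNP h')
  have hno : ∀ A, Gap A → ¬ HasOptimal A := by
    rintro A hA ⟨L, _, hL, P, hP⟩
    exact PartT.not_optimal hA (hard hL) P hP
  have hno' : ∀ A, Gap A → ¬ HasPOptimal A := by
    rintro A hA ⟨L, hL', hL, P, hP⟩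
    exact hno A hA ⟨L, hL', hL, P, IsPOptimal.isOptimal hP⟩
  have inv : Inv HasOptimal := by
    intro A A' h hA
    simpa only [HasOptimal, IsCoNP, CoNPHardRel, IsNP, Red, IsOptimal, IsProofSystem, h] using hA
  have inv' : Inv HasPOptimal := by
    intro A A' h hA
    simpa only [HasPOptimal, IsCoNP, CoNPHardRel, IsNP, Red, IsPOptimal, IsProofSystem, h] using hA
  have hY : ∀ (O : Oracle) (g : ℕ → ℕ), Tendsto g atTop atTop →
      ∃ T : Oracle, AtMost g T ∧ Gap (join O T) := by
    intro O g hg
    obtain ⟨T, h1, _, _, h2, _⟩ := main O g hg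
    exact ⟨T, h1, h2⟩
  constructor
  · intro hg
    obtain ⟨T, h1, h2⟩ := hY O g hg
    exact ⟨T, h1, h2, hno _ h2, hno' _ h2⟩
  · intro hg T hT
    exact ⟨inv_finite inv (finite_of_atMost hg hT), inv_finite inv' (finite_of_atMost hg hT)⟩

end Pool.Agent.Results.MP_f0c157_lc.SparseDestruction
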